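import Pool.Agent.Helper29.AK.Reg

/-!
# MP_b55b7c_an: both reverse inequalities if one of `A`, `A^α`, `C*(G,A,α)` is regular

Let `A` be a simple unital infinite-dimensional C*-algebra whose 2-quasitraces are dominated by
tracial states with a uniform constant (for instance `A` exact), or which is AH with dimension
growth `o(n^2)`, and let `α` be an action of a finite group `G` on `A`. Suppose that one of the
three algebras `A`, `A^α`, `C*(G,A,α)` has approximate stable rank one (for instance stable rank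
one), or uniform property Gamma, or a tracial state which dominates all quasitraces, or is AH with
dimension growth `o(n^2)`, or has radius of comparison zero. Then `rc(A) ≤ rc(A^α)` and
`rc(A)/|G| ≤ rc(C*(G,A,α))`.
-/

namespace Pool.Agent.Results.MP_b55b7c_an.AnyOfThree

open RC
open scoped ENNReal

universe u

theorem result (A : Type u) [CStarAlgebra A] [PartialOrder A] [StarOrderedRing A]
    (_hs : IsSimpleC A) (_hinf : ¬ FiniteDimensional ℂ A)
    (_hC : (∃ C : ℝ, ∀ σ : QTrace A, ∃ φ : TState A, ∀ x : A, 0 ≤ x →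
      σ.τ Unit (one1 x) ≤ C * (φ.φ x).re) ∨ SlowAH A)
    (G : Type) [Group G] [Fintype G] (α : G → A ≃⋆ₐ[ℂ] A) (_hα : IsAct α)
    (_h : Reg A ∨
      (∃ (B : Type u) (_ : CStarAlgebra B) (_ : PartialOrder B) (_ : StarOrderedRing B)
        (j : B →⋆ₐ[ℂ] A), IsFix α j ∧ Reg B) ∨
      ∃ (R : Type u) (_ : CStarAlgebra R) (_ : PartialOrder R) (_ : StarOrderedRing R)
        (k : A →⋆ₐ[ℂ] R) (w : G → R), IsCross α k w ∧ Reg R) :
    (∀ (B : Type u) [CStarAlgebra B] [PartialOrder B] [StarOrderedRing B] (j : B →⋆ₐ[ℂ] A),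
      IsFix α j → rc A ≤ rc B) ∧
    (∀ (R : Type u) [CStarAlgebra R] [PartialOrder R] [StarOrderedRing R] (k : A →⋆ₐ[ℂ] R)
      (w : G → R), IsCross α k w → rc A / (Fintype.card G : ℝ≥0∞) ≤ rc R) :=
  finalR A _hs _hinf _hC G α _hα _h

end Pool.Agent.Results.MP_b55b7c_an.AnyOfThree
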