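import Pool.Agent.Helper9.RC2.All

/-!
# MP_b55b7c_an: both reverse inequalities up to the factor 2, without any regularity

Let `A` be a simple unital infinite-dimensional C*-algebra whose 2-quasitraces are dominated by
tracial states with a uniform constant (for instance `A` exact), and let `α` be an action of a
finite group `G` on `A`. If every 2-quasitrace of `A^α` is a trace then `rc(A) ≤ 2 rc(A^α)`, and if
every 2-quasitrace of `C*(G,A,α)` is a trace then `rc(A)/|G| ≤ 2 rc(C*(G,A,α))`. For exact `A` all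
the conditions on quasitraces are satisfied. There is no condition on the action, on the
trace space, on the stable rank or on the radii of comparison.
-/

namespace Pool.Agent.Results.MP_b55b7c_an.FactorTwo

open RC
open scoped ENNReal

universe u

theorem result (A : Type u) [CStarAlgebra A] [PartialOrder A] [StarOrderedRing A]
    (_hs : IsSimpleC A) (_hinf : ¬ FiniteDimensional ℂ A)
    (_hC : ∃ C : ℝ, ∀ σ : QTrace A, ∃ φ : TState A, ∀ x : A, 0 ≤ x →
      σ.τ Unit (one1 x) ≤ C * (φ.φ x).re)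
    (G : Type) [Group G] [Fintype G] (α : G → A ≃⋆ₐ[ℂ] A) (_hα : IsAct α) :
    (∀ (B : Type u) [CStarAlgebra B] [PartialOrder B] [StarOrderedRing B] (j : B →⋆ₐ[ℂ] A),
      IsFix α j →
      (∀ ω : QTrace B, ∃ ψ : TState B, ∀ (ι : Type) [Fintype ι] [DecidableEq ι]
        (b : CStarMatrix ι ι B), 0 ≤ b → ω.τ ι b = ∑ i, (ψ.φ (b i i)).re) →
      rc A ≤ 2 * rc B) ∧
    (∀ (R : Type u) [CStarAlgebra R] [PartialOrder R] [StarOrderedRing R] (k : A →⋆ₐ[ℂ] R)
      (w : G → R), IsCross α k w →
      (∀ ω : QTrace R, ∃ ψ : TState R, ∀ (ι : Type) [Fintype ι] [DecidableEq ι]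
        (b : CStarMatrix ι ι R), 0 ≤ b → ω.τ ι b = ∑ i, (ψ.φ (b i i)).re) →
      rc A / (Fintype.card G : ℝ≥0∞) ≤ 2 * rc R) :=
  Pool.Agent.Helper9.RC2.final_all A _hs _hinf _hC G α _hα

end Pool.Agent.Results.MP_b55b7c_an.FactorTwo
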